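import Pool.Agent.Helper75.CR.St

/-!
# Project CR (MP_265e56_al), module A: a violation of the order of first occurrences forces type one
-/

set_option autoImplicit false

namespace Pool.Agent.Helper84.CR

open Pool.Agent.Helper75.CR Helper1.IM

variable {B : Type} {S : Sgn B}

/-- A nonempty product of letters with the value `e` (a sign invariant idempotent) is equal to `e`. -/
theorem pow_e (θ : Pg S) (e : Wo B) (hee : θ.r (e ++ e) e) (hes : ∀ b, θ.r (S.sg b e) e) (σ : ℕ → Wo B) (s : Wo B)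
    (hσ : ∀ l ∈ cn s, σ l = e) : sB S σ s = [] ∨ θ.r (sB S σ s) e := by
  induction s with
  | nil => exact Or.inl rfl
  | cons a s ih =>
    right
    rw [sB_cons, hσ a.1 (by simp)]
    rcases ih (fun l hl => hσ l (by simp [hl])) with h | h
    · rw [h]
      simpa using hes a.2
    · exact θ.trans' (θ.mul2 (hes a.2) h) hee

theorem Er_f {θ : Pg S} (hθ : Bs S θ) {f w q : Wo B} (hw : w ≠ []) (h : θ.r f (w ++ q)) (hc : cn f = cn w) :
    Er θ f w := by
  have hcq : cn q ⊆ cn w := by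
    have h1 := hθ.cp _ _ h
    rw [hc, cn_append] at h1
    rw [h1]
    exact Finset.subset_union_right
  have h1 : Er θ w (w ++ q) := hθ.ext hw hcq
  exact (h1.trans (Er.of hθ.cp (by simp [hw]) (θ.symm' h))).symm

theorem claim {θ : Pg S} (hθ : Bs S θ) {i j : ℕ} {u : Wo B} (hu : Bef i j u) (σ : ℕ → Wo B) (hσ : ∀ l, σ l ≠ [])
    (e f : Wo B) (hf : f ≠ []) (hee : θ.r (e ++ e) e) (hes : ∀ b, θ.r (S.sg b e) e) (hfs : ∀ b, θ.r (S.sg b f) f)
    (hef : θ.r (e ++ f) f) (hi : σ i = f) (he : ∀ l, l ≠ i → l ≠ j → σ l = e) (hc : ∀ l, cn (σ l) ⊆ cn f) :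
    Er θ (sB S σ u) f := by
  obtain ⟨s, a, t, rfl, ha, his, hjs⟩ := hu
  have h1 : θ.r (sB S σ (s ++ a :: t)) (f ++ sB S σ t) := by
    rw [sB_append, sB_cons, ha, hi]
    have h2 : θ.r (S.sg a.2 f ++ sB S σ t) (f ++ sB S σ t) := θ.mulR _ (hfs _)
    rcases pow_e θ e hee hes σ s (fun l hl => he l (fun h => his (h ▸ hl)) (fun h => hjs (h ▸ hl))) with h | h
    · rw [h]
      simpa using h2
    · have h3 : θ.r (e ++ (f ++ sB S σ t)) (f ++ sB S σ t) := by
        have h4 := θ.mulR (sB S σ t) hef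
        simpa [List.append_assoc] using h4
      exact θ.trans' (θ.mul2 h h2) h3
  have hT : cn (sB S σ t) ⊆ cn f := by
    rw [cn_sB]
    exact Finset.biUnion_subset.2 (fun l _ => hc l)
  have h4 : Er θ f (f ++ sB S σ t) := hθ.ext hf hT
  have h5 : Er θ (sB S σ (s ++ a :: t)) (f ++ sB S σ t) := Er.of hθ.cp (sB_ne S σ hσ (by simp)) h1
  exact h5.trans h4.symm

/-- The product of `e` and an element which starts with `e`. -/
theorem e_mul {θ : Pg S} {e f w q : Wo B} (hee : θ.r (e ++ e) e) (h : θ.r f ((e ++ w) ++ q)) : θ.r (e ++ f) f := by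
  have h1 : θ.r (e ++ f) (e ++ ((e ++ w) ++ q)) := θ.mulL e h
  have h2 : θ.r (e ++ ((e ++ w) ++ q)) ((e ++ w) ++ q) := by
    have h3 := θ.mulR (w ++ q) hee
    simpa [List.append_assoc] using h3
  exact θ.trans' (θ.trans' h1 h2) (θ.symm' h)

theorem hA : StA := by
  intro B S θ ρ hθ hρ i j u v hij huv hu hv
  -- (1)
  obtain ⟨e, qe, he1, hee, hes, hec⟩ := hθ.h2 [(0, S.o)] (by simp)
  have hec' : cn e = {0} := by rw [hec]; simp
  have hene : e ≠ [] := fun h => by rw [h] at hec'; simp at hec'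
  obtain ⟨e'', a0, he0⟩ : ∃ e'' a0, e = e'' ++ [a0] :=
    ⟨e.dropLast, e.getLast hene, (List.dropLast_append_getLast hene).symm⟩
  obtain ⟨i0, b0⟩ := a0
  have hi0 : i0 = 0 := by
    have h1 : i0 ∈ cn e := by rw [he0]; simp
    rw [hec'] at h1
    simpa using h1
  subst hi0
  obtain ⟨k, hk⟩ : ∃ k, θ.r [(0, b0)] (k ++ e) := by
    obtain ⟨k, hk⟩ := hθ.h1' [(0, b0)] e'' (by simp) (by
      intro l hl
      have h1 : l ∈ cn e := by rw [he0]; simp [hl]
      rw [hec'] at h1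
      simpa using h1)
    refine ⟨k, ?_⟩
    rw [he0, ← List.append_assoc]
    exact hk
  -- (2)
  set y : ℕ × B := (1, S.o) with hy
  set z : ℕ × B := (2, S.o) with hz
  obtain ⟨f, qf, hf1, hff, hfs, hfc⟩ := hθ.h2 (e ++ [y, z]) (by simp)
  obtain ⟨g, qg, hg1, hgg, hgs, hgc⟩ := hθ.h2 (e ++ [z, y]) (by simp)
  have hfc' : cn f = {0, 1, 2} := by
    rw [hfc, cn_append, hec']; simp [hy, hz]; decide
  have hgc' : cn g = {0, 1, 2} := by
    rw [hgc, cn_append, hec']; simp [hy, hz]; decide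
  have hfne : f ≠ [] := by
    intro h
    have h1 : (0 : ℕ) ∈ cn f := by rw [hfc']; simp
    rw [h] at h1
    simp at h1
  have hgne : g ≠ [] := by
    intro h
    have h1 : (0 : ℕ) ∈ cn g := by rw [hgc']; simp
    rw [h] at h1
    simp at h1
  have hfE : Er θ f (e ++ [y, z]) := Er_f hθ (by simp) hf1 hfc
  have hgE : Er θ g (e ++ [z, y]) := Er_f hθ (by simp) hg1 hgc
  have hef : θ.r (e ++ f) f := e_mul hee hf1
  have heg : θ.r (e ++ g) g := e_mul hee hg1
  -- (3)
  set σ : ℕ → Wo B := fun l => if l = i then f else if l = j then g else e with hσ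
  have hσi : σ i = f := by simp [hσ]
  have hσj : σ j = g := by simp [hσ, hij.symm]
  have hσn : ∀ l, σ l ≠ [] := by
    intro l
    simp only [hσ]
    split_ifs <;> assumption
  have hσc : ∀ l, cn (σ l) ⊆ {0, 1, 2} := by
    intro l
    simp only [hσ]
    split_ifs
    · rw [hfc']
    · rw [hgc']
    · rw [hec']; simp
  have hσe : ∀ l, l ≠ i → l ≠ j → σ l = e := by
    intro l h1 h2
    simp [hσ, h1, h2]
  have hU : Er θ (sB S σ u) f := claim hθ hu σ hσn e f hfne hee hes hfs hef hσi hσe (fun l => by rw [hfc']; exact hσc l)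
  have hV : Er θ (sB S σ v) g := claim hθ hv σ hσn e g hgne hee hes hgs heg hσj (fun l h1 h2 => hσe l h2 h1)
    (fun l => by rw [hgc']; exact hσc l)
  have hUV : Er ρ (sB S σ u) (sB S σ v) := Er.sub σ hσn huv
  have hfg : Er ρ f g := ((hU.mono hρ).symm.trans hUV).trans (hV.mono hρ)
  have hw : Er ρ (e ++ [y, z]) (e ++ [z, y]) := ((hfE.mono hρ).symm.trans hfg).trans (hgE.mono hρ)
  -- (4)
  have hkw : Er ρ (k ++ (e ++ [y, z])) (k ++ (e ++ [z, y])) := hw.mulL k
  have hk1 : ∀ w : Wo B, Er ρ ([(0, b0)] ++ w) (k ++ (e ++ w)) := by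
    intro w
    have h1 : θ.r ([(0, b0)] ++ w) (k ++ (e ++ w)) := by
      rw [← List.append_assoc]
      exact θ.mulR w hk
    exact (Er.of hθ.cp (by simp) h1).mono hρ
  have h3 : Er ρ ([(0, b0)] ++ [y, z]) ([(0, b0)] ++ [z, y]) := ((hk1 _).trans hkw).trans (hk1 _).symm
  -- (5)
  intro r s t hr hs ht
  obtain ⟨r', hr', hr2⟩ := S.sur b0 r hr
  obtain ⟨s', hs', hs2⟩ := S.sur S.o s hs
  obtain ⟨t', ht', ht2⟩ := S.sur S.o t ht
  set τ : ℕ → Wo B := fun l => if l = 0 then r' else if l = 1 then s' else t' with hτ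
  have hτn : ∀ l, τ l ≠ [] := by
    intro l
    simp only [hτ]
    split_ifs <;> assumption
  have h4 := Er.sub τ hτn h3
  have e1 : sB S τ ([(0, b0)] ++ [y, z]) = r ++ s ++ t := by
    simp [sB_cons, hτ, hy, hz, hr2, hs2, ht2]
  have e2 : sB S τ ([(0, b0)] ++ [z, y]) = r ++ t ++ s := by
    simp [sB_cons, hτ, hy, hz, hr2, hs2, ht2]
  rw [e1, e2] at h4
  exact h4

end Pool.Agent.Helper84.CR
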